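import Pool.Agent.H5.DW.Abs

/-!
Project DL (MP_0d9ad5_pr), walk part: path expectations and the fourth moment of an antisymmetric functional
(forward backward martingale decomposition).
-/

set_option autoImplicit false

namespace H5DF

open MeasureTheory

namespace Rev

variable {Ω : Type*} [MeasurableSpace Ω] {μ : Measure Ω} {S : Type*} [Fintype S] (R : Rev μ S)

/-- path expectation -/
noncomputable def ex : ℕ → (List S → ℝ) → Ω → ℝ
  | 0, F, _ => F []
  | n + 1, F, X => R.av (fun s Y => ex n (fun l => F (s :: l)) (R.T s Y)) X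

/-- additive functional -/
def sumL (u : S → Ω → ℝ) : List S → Ω → ℝ
  | [], _ => 0
  | s :: l, X => u s X + sumL u l (R.T s X)

/-- end point -/
def endL : List S → Ω → Ω
  | [], X => X
  | s :: l, X => endL l (R.T s X)

lemma av_congr {f h : S → Ω → ℝ} {X : Ω} (hfh : ∀ s, R.w s X ≠ 0 → f s X = h s X) :
    R.av f X = R.av h X := by
  unfold av
  congr 1
  refine Finset.sum_congr rfl fun s _ => ?_
  by_cases hw : R.w s X = 0
  · rw [hw, zero_mul, zero_mul]
  · rw [hfh s hw]

lemma dg_T {s : S} {X : Ω} (h : R.w s X ≠ 0) : R.dg (R.T s X) ≠ 0 := by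
  have h1 : R.w (R.op s) (R.T s X) ≤ R.dg (R.T s X) :=
    Finset.single_le_sum (f := fun t => R.w t (R.T s X)) (fun t _ => R.w_nonneg t _)
      (Finset.mem_univ (R.op s))
  rw [R.w_op] at h1
  have h2 : 0 < R.w s X := lt_of_le_of_ne (R.w_nonneg s X) (Ne.symm h)
  exact (h2.trans_le h1).ne'

lemma av_const_le {c : ℝ} (hc : 0 ≤ c) (X : Ω) : R.av (fun _ _ => c) X ≤ c :=
  (le_abs_self _).trans (R.av_abs_le hc fun _ => (abs_of_nonneg hc).le)

lemma av_const {c : ℝ} {X : Ω} (hX : R.dg X ≠ 0) : R.av (fun _ _ => c) X = c := by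
  unfold av
  rw [← Finset.sum_mul]
  change R.dg X * c / R.dg X = c
  field_simp

lemma ex_add (n : ℕ) (F F' : List S → ℝ) (X : Ω) :
    R.ex n (fun l => F l + F' l) X = R.ex n F X + R.ex n F' X := by
  induction n generalizing F F' X with
  | zero => rfl
  | succ n ih =>
    simp only [ex, ih]
    exact R.av_add _ _ X

lemma ex_smul (n : ℕ) (c : ℝ) (F : List S → ℝ) (X : Ω) :
    R.ex n (fun l => c * F l) X = c * R.ex n F X := by
  induction n generalizing F X with
  | zero => rfl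
  | succ n ih =>
    simp only [ex, ih]
    unfold av
    rw [← mul_div_assoc, Finset.mul_sum]
    congr 1
    refine Finset.sum_congr rfl fun s _ => ?_
    ring

lemma ex_mono (n : ℕ) {F F' : List S → ℝ} (h : ∀ l, F l ≤ F' l) (X : Ω) :
    R.ex n F X ≤ R.ex n F' X := by
  induction n generalizing F F' X with
  | zero => exact h []
  | succ n ih =>
    simp only [ex]
    exact R.av_mono fun s => mul_le_mul_of_nonneg_left (ih (fun l => h (s :: l)) _) (R.w_nonneg s X)

lemma ex_const (n : ℕ) (c : ℝ) {X : Ω} (hX : R.dg X ≠ 0) : R.ex n (fun _ => c) X = c := by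
  induction n generalizing X with
  | zero => rfl
  | succ n ih =>
    have h : R.ex (n + 1) (fun _ => c) X = R.av (fun _ _ => c) X := by
      simp only [ex]
      exact R.av_congr fun s hs => ih (R.dg_T hs)
    rw [h]
    exact R.av_const hX

/-- third moment -/
noncomputable def c3 (u : S → Ω → ℝ) : ℕ → Ω → ℝ
  | 0 => fun _ => 0
  | n + 1 => R.av (fun s X => u s X ^ 3 + 3 * u s X ^ 2 * R.a u n (R.T s X) +
      3 * u s X * R.b u n (R.T s X) + c3 u n (R.T s X))

/-- fourth moment -/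
noncomputable def q4 (u : S → Ω → ℝ) : ℕ → Ω → ℝ
  | 0 => fun _ => 0
  | n + 1 => R.av (fun s X => u s X ^ 4 + 4 * u s X ^ 3 * R.a u n (R.T s X) +
      6 * u s X ^ 2 * R.b u n (R.T s X) + 4 * u s X * R.c3 u n (R.T s X) + q4 u n (R.T s X))

lemma ex_all (u : S → Ω → ℝ) (n : ℕ) {X : Ω} (hX : R.dg X ≠ 0) :
    R.ex n (fun l => R.sumL u l X) X = R.a u n X ∧
    R.ex n (fun l => R.sumL u l X ^ 2) X = R.b u n X ∧
    R.ex n (fun l => R.sumL u l X ^ 3) X = R.c3 u n X ∧
    R.ex n (fun l => R.sumL u l X ^ 4) X = R.q4 u n X := by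
  induction n generalizing X with
  | zero => simp [ex, sumL, a, b, c3, q4]
  | succ n ih =>
    simp only [ex, sumL]
    refine ⟨?_, ?_, ?_, ?_⟩
    · rw [a]
      refine R.av_congr fun s hs => ?_
      obtain ⟨i1, -, -, -⟩ := ih (R.dg_T hs)
      rw [R.ex_add n (fun _ => u s X) (fun l => R.sumL u l (R.T s X)), i1,
        R.ex_const n _ (R.dg_T hs)]
    · rw [b]
      refine R.av_congr fun s hs => ?_
      obtain ⟨i1, i2, -, -⟩ := ih (R.dg_T hs)
      have e : (fun l => (u s X + R.sumL u l (R.T s X)) ^ 2) = fun l =>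
          ((fun _ => u s X ^ 2) l + (2 * u s X) * (R.sumL u l (R.T s X))) +
            R.sumL u l (R.T s X) ^ 2 := by
        funext l
        ring
      rw [e, R.ex_add, R.ex_add, R.ex_smul, i1, i2, R.ex_const n _ (R.dg_T hs)]
    · rw [c3]
      refine R.av_congr fun s hs => ?_
      obtain ⟨i1, i2, i3, -⟩ := ih (R.dg_T hs)
      have e : (fun l => (u s X + R.sumL u l (R.T s X)) ^ 3) = fun l =>
          (((fun _ => u s X ^ 3) l + (3 * u s X ^ 2) * (R.sumL u l (R.T s X))) +
            (3 * u s X) * R.sumL u l (R.T s X) ^ 2) + R.sumL u l (R.T s X) ^ 3 := by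
        funext l
        ring
      rw [e, R.ex_add, R.ex_add, R.ex_add, R.ex_smul, R.ex_smul, i1, i2, i3,
        R.ex_const n _ (R.dg_T hs)]
    · rw [q4]
      refine R.av_congr fun s hs => ?_
      obtain ⟨i1, i2, i3, i4⟩ := ih (R.dg_T hs)
      have e : (fun l => (u s X + R.sumL u l (R.T s X)) ^ 4) = fun l =>
          ((((fun _ => u s X ^ 4) l + (4 * u s X ^ 3) * (R.sumL u l (R.T s X))) +
            (6 * u s X ^ 2) * R.sumL u l (R.T s X) ^ 2) +
            (4 * u s X) * R.sumL u l (R.T s X) ^ 3) + R.sumL u l (R.T s X) ^ 4 := by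
        funext l
        ring
      rw [e, R.ex_add, R.ex_add, R.ex_add, R.ex_add, R.ex_smul, R.ex_smul, R.ex_smul, i1, i2, i3,
        i4, R.ex_const n _ (R.dg_T hs)]

/-- forward martingale: fourth moment, from every starting point -/
lemma fwd {u : S → Ω → ℝ} (hu : ∀ s X, |u s X| ≤ 2) (h0 : ∀ X, ∑ s, R.w s X * u s X = 0) (n : ℕ)
    (v : ℝ) (X : Ω) :
    R.ex n (fun l => (v + R.sumL u l X) ^ 4) X ≤ v ^ 4 + 32 * n * v ^ 2 + 64 * n ^ 2 := by
  induction n generalizing v X with
  | zero => simp [ex, sumL]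
  | succ n ih =>
    have h1 : R.ex (n + 1) (fun l => (v + R.sumL u l X) ^ 4) X ≤
        R.av (fun s Y => (v ^ 4 + 32 * (n + 1) * v ^ 2 + 64 * (n + 1) ^ 2) +
          (4 * v ^ 3 + 64 * n * v) * u s Y) X := by
      simp only [ex, sumL]
      refine R.av_mono fun s => mul_le_mul_of_nonneg_left ?_ (R.w_nonneg s X)
      have e : (fun l => (v + (u s X + R.sumL u l (R.T s X))) ^ 4) =
          fun l => ((v + u s X) + R.sumL u l (R.T s X)) ^ 4 := by
        funext l
        ring
      rw [e]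
      refine (ih (v + u s X) (R.T s X)).trans ?_
      have hn : (0 : ℝ) ≤ n := Nat.cast_nonneg n
      set x := u s X with hx
      have hx2 : x ^ 2 ≤ 4 := by
        have := abs_le.1 (hu s X)
        rw [← hx] at this
        nlinarith
      have hx0 : 0 ≤ x ^ 2 := sq_nonneg x
      have k1 : 6 * v ^ 2 * x ^ 2 ≤ 24 * v ^ 2 := by nlinarith [sq_nonneg v]
      have k2 : 4 * v * x ^ 3 ≤ 8 * v ^ 2 + 32 := by
        have : 4 * v * x ^ 3 ≤ 2 * (v * x) ^ 2 + 2 * (x ^ 2) ^ 2 := by
          nlinarith [sq_nonneg (v * x - x ^ 2)]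
        have h3 : (v * x) ^ 2 ≤ 4 * v ^ 2 := by nlinarith [sq_nonneg v]
        have h4 : (x ^ 2) ^ 2 ≤ 16 := by nlinarith
        linarith
      have k3 : x ^ 4 ≤ 16 := by nlinarith
      have k4 : 32 * (n : ℝ) * x ^ 2 ≤ 128 * n := by nlinarith
      nlinarith
    refine h1.trans ?_
    have h2 : R.av (fun s Y => (v ^ 4 + 32 * ((n : ℝ) + 1) * v ^ 2 + 64 * ((n : ℝ) + 1) ^ 2) +
          (4 * v ^ 3 + 64 * n * v) * u s Y) X =
        R.av (fun _ _ => v ^ 4 + 32 * ((n : ℝ) + 1) * v ^ 2 + 64 * ((n : ℝ) + 1) ^ 2) X := by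
      rw [R.av_add]
      have : R.av (fun s Y => (4 * v ^ 3 + 64 * n * v) * u s Y) X = 0 := by
        unfold av
        have e : ∑ s, R.w s X * ((4 * v ^ 3 + 64 * n * v) * u s X) =
            (4 * v ^ 3 + 64 * n * v) * ∑ s, R.w s X * u s X := by
          rw [Finset.mul_sum]
          refine Finset.sum_congr rfl fun s _ => ?_
          ring
        rw [e, h0, mul_zero, zero_div]
      rw [this, add_zero]
    rw [h2]
    push_cast
    exact R.av_const_le (by positivity) X

/-- the decomposition -/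
lemma decomp (ψ : S → Ω → ℝ) (l : List S) (X : Ω) :
    2 * R.sumL ψ l X = R.sumL (fun s Y => ψ s Y - R.av ψ Y) l X -
      R.sumL (fun s Y => - ψ s Y - R.av ψ (R.T s Y)) l X - (R.av ψ (R.endL l X) - R.av ψ X) := by
  induction l generalizing X with
  | nil => simp [sumL, endL]
  | cons s l ih =>
    simp only [sumL, endL]
    have := ih (R.T s X)
    linarith

section Int

variable [IsProbabilityMeasure μ] {u : S → Ω → ℝ}

lemma bm_pow {f : Ω → ℝ} (hf : BM f) (k : ℕ) : BM (fun X => f X ^ k) := by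
  induction k with
  | zero => simpa using BM.const (Ω := Ω) 1
  | succ k ih =>
    simp only [pow_succ]
    exact ih.mul hf

lemma bm_c3 (hu : ∀ s, BM (u s)) (n : ℕ) : BM (R.c3 u n) := by
  induction n with
  | zero => exact BM.const 0
  | succ n ih =>
    refine R.bm_av fun s => ?_
    have ha := (R.bm_a hu n).comp (R.T_meas s)
    have hb := (R.bm_b hu n).comp (R.T_meas s)
    exact (((bm_pow (hu s) 3).add (((BM.const 3).mul (bm_pow (hu s) 2)).mul ha)).add
      (((BM.const 3).mul (hu s)).mul hb)).add (ih.comp (R.T_meas s))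

lemma bm_q4 (hu : ∀ s, BM (u s)) (n : ℕ) : BM (R.q4 u n) := by
  induction n with
  | zero => exact BM.const 0
  | succ n ih =>
    refine R.bm_av fun s => ?_
    have ha := (R.bm_a hu n).comp (R.T_meas s)
    have hb := (R.bm_b hu n).comp (R.T_meas s)
    have hc := (R.bm_c3 hu n).comp (R.T_meas s)
    exact ((((bm_pow (hu s) 4).add (((BM.const 4).mul (bm_pow (hu s) 3)).mul ha)).add
      (((BM.const 6).mul (bm_pow (hu s) 2)).mul hb)).add (((BM.const 4).mul (hu s)).mul hc)).add
      (ih.comp (R.T_meas s))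

/-- one step reversal kills the martingale term -/
lemma E_back {h : S → Ω → ℝ} (hh : ∀ s, BM (h s)) (h0 : ∀ X, ∑ s, R.w s X * h s X = 0)
    {g : Ω → ℝ} (hg : BM g) :
    R.E (fun s X => h (R.op s) (R.T s X) * g (R.T s X)) = 0 := by
  have h1 : R.E (fun s X => h s X * g X) = R.E (fun s X => h (R.op s) (R.T s X) * g (R.T s X)) :=
    R.E_rev fun s => (hh s).mul hg
  rw [← h1]
  unfold E
  rw [← integral_finsetSum]
  · have e : ∀ X, ∑ s, R.w s X * (h s X * g X) = 0 := by
      intro X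
      have : ∑ s, R.w s X * (h s X * g X) = (∑ s, R.w s X * h s X) * g X := by
        rw [Finset.sum_mul]
        refine Finset.sum_congr rfl fun s _ => ?_
        ring
      rw [this, h0, zero_mul]
    simp [e]
  · intro s _
    exact ((R.bm_w s).mul ((hh s).mul hg)).integrable μ

lemma E_T {g : Ω → ℝ} (hg : BM g) : R.E (fun s X => g (R.T s X)) = ∫ X, R.dg X * g X ∂μ := by
  rw [R.integral_dg_mul hg, R.E_rev fun _ => hg]

lemma E_mono {f g : S → Ω → ℝ} (hf : ∀ s, BM (f s)) (hg : ∀ s, BM (g s))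
    (h : ∀ s X, R.w s X * f s X ≤ R.w s X * g s X) : R.E f ≤ R.E g := by
  unfold E
  refine Finset.sum_le_sum fun s _ => ?_
  exact integral_mono (((R.bm_w s).mul (hf s)).integrable μ)
    (((R.bm_w s).mul (hg s)).integrable μ) fun X => h s X

lemma E_addh {f g : S → Ω → ℝ} (hf : ∀ s, BM (f s)) (hg : ∀ s, BM (g s)) :
    R.E (fun s X => f s X + g s X) = R.E f + R.E g := R.E_add hf hg

/-- second and fourth moment of the backward martingale -/
lemma bwd {h : S → Ω → ℝ} (hh : ∀ s, BM (h s)) (h2 : ∀ s X, |h s X| ≤ 2)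
    (h0 : ∀ X, ∑ s, R.w s X * h s X = 0) (n : ℕ) :
    ∫ X, R.dg X * R.b (fun s X => h (R.op s) (R.T s X)) n X ∂μ ≤ 4 * n * ∫ X, R.dg X ∂μ ∧
    ∫ X, R.dg X * R.q4 (fun s X => h (R.op s) (R.T s X)) n X ∂μ ≤ 64 * n ^ 2 * ∫ X, R.dg X ∂μ := by
  set u : S → Ω → ℝ := fun s X => h (R.op s) (R.T s X) with hu
  have hub : ∀ s, BM (u s) := fun s => (hh (R.op s)).comp (R.T_meas s)
  have hu2 : ∀ s X, |u s X| ≤ 2 := fun s X => h2 _ _
  set Q := ∫ X, R.dg X ∂μ with hQ
  have hQE : ∀ c : ℝ, R.E (fun _ _ => c) = c * Q := by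
    intro c
    rw [← R.integral_dg_mul (BM.const c), hQ, ← integral_const_mul]
    refine integral_congr_ae (Filter.Eventually.of_forall fun X => ?_)
    simp only
    ring
  have hQ0 : 0 ≤ Q := integral_nonneg fun X => R.dg_nonneg X
  induction n with
  | zero => simp [b, q4]
  | succ n ih =>
    obtain ⟨ih1, ih2⟩ := ih
    have hbA := R.bm_a hub n
    have hbB := R.bm_b hub n
    have hbC := R.bm_c3 hub n
    have hbQ := R.bm_q4 hub n
    constructor
    · have e : ∫ X, R.dg X * R.b u (n + 1) X ∂μ = R.E (fun s X => u s X ^ 2) +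
          2 * R.E (fun s X => u s X * R.a u n (R.T s X)) + R.E (fun s X => R.b u n (R.T s X)) := by
        have t1 : ∀ s, BM (fun X => u s X ^ 2) := fun s => bm_pow (hub s) 2
        have t2 : ∀ s, BM (fun X => 2 * (u s X * R.a u n (R.T s X))) := fun s =>
          (BM.const 2).mul ((hub s).mul (hbA.comp (R.T_meas s)))
        have t3 : ∀ s, BM (fun X => R.b u n (R.T s X)) := fun s => hbB.comp (R.T_meas s)
        rw [← R.E_smul, ← R.E_add t1 t2, ← R.E_add (fun s => (t1 s).add (t2 s)) t3, b,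
          ← R.integral_dg_av (fun s => ((t1 s).add (t2 s)).add (t3 s))]
        congr 1
        funext X
        congr 2
        funext s X
        ring
      have e2 : R.E (fun s X => u s X * R.a u n (R.T s X)) = 0 := R.E_back hh h0 hbA
      have e3 : R.E (fun s X => u s X ^ 2) ≤ 4 * Q := by
        rw [← hQE]
        refine R.E_mono (fun s => bm_pow (hub s) 2) (fun s => BM.const 4) fun s X => ?_
        refine mul_le_mul_of_nonneg_left ?_ (R.w_nonneg s X)
        have := abs_le.1 (hu2 s X)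
        nlinarith
      rw [e, e2, R.E_T hbB]
      push_cast
      linarith
    · have t1 : ∀ s, BM (fun X => u s X ^ 4 + 4 * u s X ^ 3 * R.a u n (R.T s X) +
          6 * u s X ^ 2 * R.b u n (R.T s X)) := fun s =>
        ((bm_pow (hub s) 4).add (((BM.const 4).mul (bm_pow (hub s) 3)).mul
          (hbA.comp (R.T_meas s)))).add (((BM.const 6).mul (bm_pow (hub s) 2)).mul
          (hbB.comp (R.T_meas s)))
      have t2 : ∀ s, BM (fun X => 4 * (u s X * R.c3 u n (R.T s X))) := fun s =>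
        (BM.const 4).mul ((hub s).mul (hbC.comp (R.T_meas s)))
      have t3 : ∀ s, BM (fun X => R.q4 u n (R.T s X)) := fun s => hbQ.comp (R.T_meas s)
      have e : ∫ X, R.dg X * R.q4 u (n + 1) X ∂μ =
          R.E (fun s X => u s X ^ 4 + 4 * u s X ^ 3 * R.a u n (R.T s X) +
            6 * u s X ^ 2 * R.b u n (R.T s X)) +
          4 * R.E (fun s X => u s X * R.c3 u n (R.T s X)) + R.E (fun s X => R.q4 u n (R.T s X)) := by
        rw [← R.E_smul, ← R.E_add t1 t2, ← R.E_add (fun s => (t1 s).add (t2 s)) t3, q4,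
          ← R.integral_dg_av (fun s => ((t1 s).add (t2 s)).add (t3 s))]
        congr 1
        funext X
        congr 2
        funext s X
        ring
      have e2 : R.E (fun s X => u s X * R.c3 u n (R.T s X)) = 0 := R.E_back hh h0 hbC
      have e3 : R.E (fun s X => u s X ^ 4 + 4 * u s X ^ 3 * R.a u n (R.T s X) +
            6 * u s X ^ 2 * R.b u n (R.T s X)) ≤ 48 * Q + 32 * ∫ X, R.dg X * R.b u n X ∂μ := by
        have e4 : 48 * Q + 32 * ∫ X, R.dg X * R.b u n X ∂μ =
            R.E (fun s X => 48 + 32 * R.b u n (R.T s X)) := by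
          rw [R.E_add (fun _ => BM.const 48) (fun s => (BM.const 32).mul (hbB.comp (R.T_meas s))),
            R.E_smul, R.E_T hbB, hQE]
        rw [e4]
        refine R.E_mono t1 (fun s => (BM.const 48).add ((BM.const 32).mul
          (hbB.comp (R.T_meas s)))) fun s X => ?_
        refine mul_le_mul_of_nonneg_left ?_ (R.w_nonneg s X)
        have k0 := R.a_sq_le_b u n (R.T s X)
        have k1 := hu2 s X
        set x := u s X
        set A := R.a u n (R.T s X)
        set B := R.b u n (R.T s X)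
        have hB0 : 0 ≤ B := (sq_nonneg _).trans k0
        have hx2 : x ^ 2 ≤ 4 := by
          have := abs_le.1 k1
          nlinarith
        have hx0 : 0 ≤ x ^ 2 := sq_nonneg x
        have k2 : x ^ 4 ≤ 16 := by nlinarith
        have k3 : 4 * x ^ 3 * A ≤ 8 * B + 32 := by
          have h1 : 4 * x ^ 3 * A ≤ 2 * (x ^ 2) ^ 2 + 2 * (x * A) ^ 2 := by
            nlinarith [sq_nonneg (x ^ 2 - x * A)]
          have h3 : (x * A) ^ 2 ≤ 4 * A ^ 2 := by nlinarith [sq_nonneg A]
          have h4 : (x ^ 2) ^ 2 ≤ 16 := by nlinarith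
          linarith
        have k4 : 6 * x ^ 2 * B ≤ 24 * B := by nlinarith
        linarith
      rw [e, e2, R.E_T hbQ]
      push_cast
      nlinarith

/-- fourth moment of an antisymmetric functional -/
theorem fourth {ψ : S → Ω → ℝ} (hψ : ∀ s, BM (ψ s)) (hψ1 : ∀ s X, |ψ s X| ≤ 1)
    (hanti : ∀ s X, ψ (R.op s) (R.T s X) = - ψ s X) {n : ℕ} (hn : 0 < n) :
    ∫ X, R.dg X * R.q4 ψ n X ∂μ ≤ 243 * n ^ 2 * ∫ X, R.dg X ∂μ := by
  set h : S → Ω → ℝ := fun s X => ψ s X - R.av ψ X with hh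
  have hφ : BM (R.av ψ) := R.bm_av hψ
  have hφ1 : ∀ X, |R.av ψ X| ≤ 1 := fun X => R.av_abs_le zero_le_one fun s => hψ1 s X
  have hhb : ∀ s, BM (h s) := fun s => (hψ s).sub hφ
  have hh2 : ∀ s X, |h s X| ≤ 2 := by
    intro s X
    have h1 := abs_le.1 (hψ1 s X)
    have h2 := abs_le.1 (hφ1 X)
    rw [abs_le]
    constructor
    · simp only [hh]; linarith
    · simp only [hh]; linarith
  have hh0 : ∀ X, ∑ s, R.w s X * h s X = 0 := by
    intro X
    have e : ∑ s, R.w s X * h s X = (∑ s, R.w s X * ψ s X) - R.dg X * R.av ψ X := by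
      have e1 : R.dg X * R.av ψ X = ∑ s, R.w s X * R.av ψ X := by
        rw [← Finset.sum_mul]
        rfl
      rw [e1, ← Finset.sum_sub_distrib]
      refine Finset.sum_congr rfl fun s _ => ?_
      simp only [hh]
      ring
    rw [e, R.dg_mul_av, sub_self]
  have eu : (fun s X => - ψ s X - R.av ψ (R.T s X)) = fun s X => h (R.op s) (R.T s X) := by
    funext s X
    simp only [hh, hanti]
  obtain ⟨-, hb⟩ := R.bwd hhb hh2 hh0 n
  set u : S → Ω → ℝ := fun s X => h (R.op s) (R.T s X) with hu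
  have hub : ∀ s, BM (u s) := fun s => (hhb (R.op s)).comp (R.T_meas s)
  have hpt : ∀ X, R.dg X * R.q4 ψ n X ≤
      27 / 16 * (R.dg X * R.q4 u n X + (64 * n ^ 2 + 16) * R.dg X) := by
    intro X
    by_cases hX : R.dg X = 0
    · simp [hX]
    · obtain ⟨-, -, -, e4⟩ := R.ex_all ψ n hX
      obtain ⟨-, -, -, e4'⟩ := R.ex_all u n hX
      have h1 : R.ex n (fun l => R.sumL ψ l X ^ 4) X ≤ R.ex n (fun l =>
          27 / 16 * (((0 + R.sumL h l X) ^ 4 + R.sumL u l X ^ 4) + 16)) X := by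
        refine R.ex_mono n (fun l => ?_) X
        have hd := R.decomp ψ l X
        rw [eu] at hd
        have hc1 := abs_le.1 (hφ1 X)
        have hc2 := abs_le.1 (hφ1 (R.endL l X))
        set c := R.av ψ (R.endL l X) - R.av ψ X with hc
        have hc4 : c ^ 2 ≤ 4 := by nlinarith
        set M := R.sumL h l X
        set M' := R.sumL u l X
        set s' := R.sumL ψ l X
        have hs : (2 * s') ^ 2 ≤ 3 * (M ^ 2 + M' ^ 2 + c ^ 2) := by
          rw [hd]
          nlinarith [sq_nonneg (M + M'), sq_nonneg (M + c), sq_nonneg (M' - c)]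
        have hs4 : (2 * s') ^ 4 ≤ 27 * (M ^ 4 + M' ^ 4 + c ^ 4) := by
          have k1 : ((2 * s') ^ 2) ^ 2 ≤ (3 * (M ^ 2 + M' ^ 2 + c ^ 2)) ^ 2 :=
            pow_le_pow_left₀ (sq_nonneg _) hs 2
          nlinarith [sq_nonneg (M ^ 2 - M' ^ 2), sq_nonneg (M ^ 2 - c ^ 2),
            sq_nonneg (M' ^ 2 - c ^ 2)]
        have hc16 : c ^ 4 ≤ 16 := by nlinarith [sq_nonneg c]
        have e : (2 * s') ^ 4 = 16 * s' ^ 4 := by ring
        rw [zero_add]
        linarith
      rw [e4] at h1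
      rw [R.ex_smul, R.ex_add, R.ex_add, e4', R.ex_const n 16 hX] at h1
      have h3 := R.fwd hh2 hh0 n 0 X
      have h4 : R.q4 ψ n X ≤ 27 / 16 * (R.q4 u n X + (64 * n ^ 2 + 16)) := by
        refine h1.trans ?_
        have : (0 : ℝ) ^ 4 + 32 * n * 0 ^ 2 + 64 * n ^ 2 = 64 * n ^ 2 := by ring
        rw [this] at h3
        linarith
      have h5 := mul_le_mul_of_nonneg_left h4 (R.dg_nonneg X)
      linarith
  have i1 : Integrable (fun X => R.dg X * R.q4 ψ n X) μ := (R.bm_dg.mul (R.bm_q4 hψ n)).integrable μ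
  have i2 : Integrable (fun X => R.dg X * R.q4 u n X) μ := (R.bm_dg.mul (R.bm_q4 hub n)).integrable μ
  have i3 : Integrable R.dg μ := R.bm_dg.integrable μ
  have h6 : ∫ X, R.dg X * R.q4 ψ n X ∂μ ≤
      ∫ X, 27 / 16 * (R.dg X * R.q4 u n X + (64 * n ^ 2 + 16) * R.dg X) ∂μ :=
    integral_mono i1 ((i2.add (i3.const_mul _)).const_mul _) hpt
  rw [integral_const_mul, integral_add i2 (i3.const_mul _), integral_const_mul] at h6
  have hQ0 : 0 ≤ ∫ X, R.dg X ∂μ := integral_nonneg fun X => R.dg_nonneg X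
  have hn1 : (1 : ℝ) ≤ (n : ℝ) ^ 2 := by
    have : (1 : ℝ) ≤ n := by exact_mod_cast hn
    nlinarith
  nlinarith

end Int

end Rev

end H5DF
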