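import Pool.Agent.H5.DF.RWAbs

/-!
Project DL (MP_0d9ad5_pr), walk part: the abstract reversible chain. The exact formula for the variance of an
antisymmetric functional and the Thomson type lower bound.
-/

set_option autoImplicit false

namespace H5DF

open MeasureTheory

namespace Rev

variable {Ω : Type*} [MeasurableSpace Ω] {μ : Measure Ω} {S : Type*} [Fintype S] (R : Rev μ S)

lemma av_abs_le {f : S → Ω → ℝ} {c : ℝ} (hc : 0 ≤ c) {ω : Ω} (hf : ∀ s, |f s ω| ≤ c) :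
    |R.av f ω| ≤ c := by
  by_cases h : R.dg ω = 0
  · rw [av, h, div_zero, abs_zero]
    exact hc
  · have hpos : 0 < R.dg ω := lt_of_le_of_ne (R.dg_nonneg ω) (Ne.symm h)
    rw [av, abs_div, abs_of_pos hpos, div_le_iff₀ hpos]
    calc |∑ s, R.w s ω * f s ω| ≤ ∑ s, |R.w s ω * f s ω| := Finset.abs_sum_le_sum_abs _ _
      _ ≤ ∑ s, c * R.w s ω := by
        refine Finset.sum_le_sum fun s _ => ?_
        rw [abs_mul, abs_of_nonneg (R.w_nonneg s ω), mul_comm]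
        exact mul_le_mul_of_nonneg_right (hf s) (R.w_nonneg s ω)
      _ = c * R.dg ω := by rw [← Finset.mul_sum, dg]

lemma av_sq_le (f : S → Ω → ℝ) (ω : Ω) : R.av f ω ^ 2 ≤ R.av (fun s ω => f s ω ^ 2) ω := by
  by_cases h : R.dg ω = 0
  · simp [av, h]
  · have hpos : 0 < R.dg ω := lt_of_le_of_ne (R.dg_nonneg ω) (Ne.symm h)
    have h1 : (∑ s, R.w s ω * f s ω) ^ 2 ≤ (∑ s, R.w s ω) * ∑ s, R.w s ω * f s ω ^ 2 :=
      Finset.sum_sq_le_sum_mul_sum_of_sq_eq_mul Finset.univ (fun s _ => R.w_nonneg s ω)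
        (fun s _ => mul_nonneg (R.w_nonneg s ω) (sq_nonneg _)) (fun s _ => by ring)
    unfold av
    rw [div_pow, div_le_div_iff₀ (by positivity) hpos]
    have h2 : (∑ s, R.w s ω) = R.dg ω := rfl
    rw [h2] at h1
    nlinarith

lemma av_mono {f h : S → Ω → ℝ} {ω : Ω} (hfh : ∀ s, R.w s ω * f s ω ≤ R.w s ω * h s ω) :
    R.av f ω ≤ R.av h ω :=
  div_le_div_of_nonneg_right (Finset.sum_le_sum fun s _ => hfh s) (R.dg_nonneg ω)

lemma a_sq_le_b (ψ : S → Ω → ℝ) (n : ℕ) (ω : Ω) : R.a ψ n ω ^ 2 ≤ R.b ψ n ω := by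
  induction n generalizing ω with
  | zero => simp [a, b]
  | succ n ih =>
    refine (R.av_sq_le (fun s ω => ψ s ω + R.a ψ n (R.T s ω)) ω).trans ?_
    refine R.av_mono fun s => mul_le_mul_of_nonneg_left ?_ (R.w_nonneg s ω)
    have h := ih (R.T s ω)
    nlinarith

lemma b_nonneg (ψ : S → Ω → ℝ) (n : ℕ) (ω : Ω) : 0 ≤ R.b ψ n ω :=
  (sq_nonneg _).trans (R.a_sq_le_b ψ n ω)

lemma a_abs_le {ψ : S → Ω → ℝ} {A : ℝ} (hA : 0 ≤ A) (hψ : ∀ s ω, |ψ s ω| ≤ A) (n : ℕ) (ω : Ω) :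
    |R.a ψ n ω| ≤ n * A := by
  induction n generalizing ω with
  | zero => simp [a]
  | succ n ih =>
    refine R.av_abs_le (by positivity) fun s => ?_
    refine (abs_add_le _ _).trans ?_
    have h1 := hψ s ω
    have h2 := ih (R.T s ω)
    push_cast
    linarith

lemma av_lin (ψ χ : S → Ω → ℝ) (t : ℝ) (ω : Ω) :
    R.av (fun s ω => ψ s ω - t * χ s ω) ω = R.av ψ ω - t * R.av χ ω := by
  unfold av
  rw [← mul_div_assoc, ← sub_div, Finset.mul_sum, ← Finset.sum_sub_distrib]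
  congr 1
  refine Finset.sum_congr rfl fun s _ => ?_
  ring

lemma a_lin (ψ χ : S → Ω → ℝ) (t : ℝ) (n : ℕ) (ω : Ω) :
    R.a (fun s ω => ψ s ω - t * χ s ω) n ω = R.a ψ n ω - t * R.a χ n ω := by
  induction n generalizing ω with
  | zero => simp [a]
  | succ n ih =>
    have h : R.a (fun s ω => ψ s ω - t * χ s ω) (n + 1) ω =
        R.av (fun s ω => (ψ s ω + R.a ψ n (R.T s ω)) - t * (χ s ω + R.a χ n (R.T s ω))) ω := by
      rw [a]
      congr 1
      funext s ω'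
      rw [ih]
      ring
    rw [h, R.av_lin]
    rfl

variable [IsProbabilityMeasure μ]

/-- the exact formula -/
theorem b_eq {ψ : S → Ω → ℝ} (hψ : ∀ s, BM (ψ s))
    (hanti : ∀ s ω, ψ (R.op s) (R.T s ω) = - ψ s ω) (n : ℕ) :
    ∫ ω, R.dg ω * R.b ψ n ω ∂μ = n * R.E (fun s ω => ψ s ω ^ 2) -
      2 * ∑ k ∈ Finset.range n, R.ip (R.av ψ) (R.a ψ k) := by
  induction n with
  | zero => simp [b]
  | succ n ih =>
    have ha := R.bm_a hψ n
    have hb := R.bm_b hψ n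
    have hsq : ∀ s, BM (fun ω => ψ s ω ^ 2) := by
      intro s
      simpa only [sq] using (hψ s).mul (hψ s)
    have hca : ∀ s, BM (fun ω => ψ s ω * R.a ψ n (R.T s ω)) :=
      fun s => (hψ s).mul (ha.comp (R.T_meas s))
    have hcb : ∀ s, BM (fun ω => R.b ψ n (R.T s ω)) := fun s => hb.comp (R.T_meas s)
    have h1 : ∫ ω, R.dg ω * R.b ψ (n + 1) ω ∂μ =
        R.E (fun s ω => ψ s ω ^ 2) + 2 * R.E (fun s ω => ψ s ω * R.a ψ n (R.T s ω)) +
          R.E (fun s ω => R.b ψ n (R.T s ω)) := by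
      rw [← R.E_smul, ← R.E_add hsq (fun s => (BM.const 2).mul (hca s)),
        ← R.E_add (fun s => (hsq s).add ((BM.const 2).mul (hca s))) hcb, b, R.integral_dg_av]
      · congr 1
        funext s ω
        ring
      · intro s
        have := ((hsq s).add ((BM.const 2).mul (hca s))).add (hcb s)
        have e : (fun ω => ψ s ω ^ 2 + 2 * ψ s ω * R.a ψ n (R.T s ω) + R.b ψ n (R.T s ω)) =
            fun ω => ψ s ω ^ 2 + 2 * (ψ s ω * R.a ψ n (R.T s ω)) + R.b ψ n (R.T s ω) := by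
          funext ω
          ring
        rw [e]
        exact this
    have h2 : R.E (fun s ω => R.b ψ n (R.T s ω)) = ∫ ω, R.dg ω * R.b ψ n ω ∂μ := by
      rw [R.integral_dg_mul hb, R.E_rev fun _ => hb]
    have h3 : R.E (fun s ω => ψ s ω * R.a ψ n (R.T s ω)) = - R.ip (R.av ψ) (R.a ψ n) := by
      rw [R.E_rev hca, R.ip_comm, R.ip_av _ ha hψ, ← neg_one_mul, ← R.E_smul]
      congr 1
      funext s ω
      rw [hanti, R.T_op]
      ring
    rw [h1, h2, h3, ih, Finset.sum_range_succ]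
    push_cast
    ring

lemma ip_P_iter {f h : Ω → ℝ} (hf : BM f) (hh : BM h) (m : ℕ) :
    R.ip (R.P^[m] f) h = R.ip f (R.P^[m] h) := by
  induction m generalizing h with
  | zero => rfl
  | succ m ih =>
    rw [Function.iterate_succ_apply', R.ip_P (R.bm_iter hf m) hh, ih (R.bm_P hh),
      ← Function.iterate_succ_apply (f := R.P)]

lemma ip_sum_right {f : Ω → ℝ} (hf : BM f) {F : ℕ → Ω → ℝ} (hF : ∀ m, BM (F m)) (n : ℕ) :
    R.ip f (fun ω => ∑ m ∈ Finset.range n, F m ω) = ∑ m ∈ Finset.range n, R.ip f (F m) := by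
  unfold ip
  rw [← integral_finsetSum]
  · refine integral_congr_ae (Filter.Eventually.of_forall fun ω => ?_)
    simp only [Finset.mul_sum]
  · intro m _
    exact (R.bm_dg.mul (hf.mul (hF m))).integrable μ

lemma ip_a_symm {ψ χ : S → Ω → ℝ} (hψ : ∀ s, BM (ψ s)) (hχ : ∀ s, BM (χ s)) (n : ℕ) :
    R.ip (R.av ψ) (R.a χ n) = R.ip (R.av χ) (R.a ψ n) := by
  have h1 : R.a χ n = fun ω => ∑ m ∈ Finset.range n, R.P^[m] (R.av χ) ω :=
    funext fun ω => R.a_eq n ω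
  have h2 : R.a ψ n = fun ω => ∑ m ∈ Finset.range n, R.P^[m] (R.av ψ) ω :=
    funext fun ω => R.a_eq n ω
  rw [h1, h2, R.ip_sum_right (R.bm_av hψ) (fun m => R.bm_iter (R.bm_av hχ) m),
    R.ip_sum_right (R.bm_av hχ) (fun m => R.bm_iter (R.bm_av hψ) m)]
  refine Finset.sum_congr rfl fun m _ => ?_
  rw [← R.ip_P_iter (R.bm_av hψ) (R.bm_av hχ), R.ip_comm]

lemma ip_lin_lin {f g f' g' : Ω → ℝ} (hf : BM f) (hg : BM g) (hf' : BM f') (hg' : BM g') (t : ℝ) :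
    R.ip (fun ω => f ω - t * g ω) (fun ω => f' ω - t * g' ω) =
      R.ip f f' - t * R.ip f g' - t * R.ip g f' + t ^ 2 * R.ip g g' := by
  unfold ip
  have i1 := (R.bm_dg.mul (hf.mul hf')).integrable μ
  have i2 := (R.bm_dg.mul (hf.mul hg')).integrable μ
  have i3 := (R.bm_dg.mul (hg.mul hf')).integrable μ
  have i4 := (R.bm_dg.mul (hg.mul hg')).integrable μ
  have j1 : Integrable (fun ω => R.dg ω * (f ω * f' ω) - t * (R.dg ω * (f ω * g' ω))) μ :=
    i1.sub (i2.const_mul t)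
  have j2 : Integrable (fun ω => R.dg ω * (f ω * f' ω) - t * (R.dg ω * (f ω * g' ω)) -
    t * (R.dg ω * (g ω * f' ω))) μ := j1.sub (i3.const_mul t)
  rw [← integral_const_mul, ← integral_const_mul, ← integral_const_mul,
    ← integral_sub i1 (i2.const_mul t), ← integral_sub j1 (i3.const_mul t),
    ← integral_add j2 (i4.const_mul (t ^ 2))]
  refine integral_congr_ae (Filter.Eventually.of_forall fun ω => ?_)
  simp only
  ring

/-- pairing with the divergence -/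
lemma ip_av_abs_le {f : Ω → ℝ} {χ : S → Ω → ℝ} {F : ℝ} (hf : BM f) (hF : ∀ ω, |f ω| ≤ F)
    (hχ : ∀ s, BM (χ s)) :
    |R.ip (R.av χ) f| ≤ F * ∫ ω, |∑ s, R.w s ω * χ s ω| ∂μ := by
  have hs : BM (fun ω => ∑ s, R.w s ω * χ s ω) :=
    BM.sum Finset.univ fun s _ => (R.bm_w s).mul (hχ s)
  have h1 : R.ip (R.av χ) f = ∫ ω, (∑ s, R.w s ω * χ s ω) * f ω ∂μ := by
    unfold ip
    refine integral_congr_ae (Filter.Eventually.of_forall fun ω => ?_)
    simp only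
    rw [← R.dg_mul_av]
    ring
  rw [h1, ← integral_const_mul]
  refine (abs_integral_le_integral_abs).trans ?_
  refine integral_mono ((hs.mul hf).integrable μ).abs ((hs.integrable μ).abs.const_mul F) ?_
  intro ω
  simp only
  rw [abs_mul, mul_comm]
  exact mul_le_mul_of_nonneg_right (hF ω) (abs_nonneg _)

/-- Thomson type lower bound. -/
theorem b_lower {ψ χ : S → Ω → ℝ} (hψ : ∀ s, BM (ψ s)) (hχ : ∀ s, BM (χ s))
    (hψa : ∀ s ω, ψ (R.op s) (R.T s ω) = - ψ s ω) (hχa : ∀ s ω, χ (R.op s) (R.T s ω) = - χ s ω)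
    {A : ℝ} (hA : 0 ≤ A) (hψA : ∀ s ω, |ψ s ω| ≤ A) (t : ℝ) (n : ℕ) :
    2 * t * n * R.E (fun s ω => ψ s ω * χ s ω) - t ^ 2 * n * R.E (fun s ω => χ s ω ^ 2) -
      4 * |t| * A * n ^ 2 * ∫ ω, |∑ s, R.w s ω * χ s ω| ∂μ ≤
      ∫ ω, R.dg ω * R.b ψ n ω ∂μ := by
  set ε := ∫ ω, |∑ s, R.w s ω * χ s ω| ∂μ with hε
  have hε0 : 0 ≤ ε := integral_nonneg fun ω => abs_nonneg _
  set ρ : S → Ω → ℝ := fun s ω => ψ s ω - t * χ s ω with hρ
  have hρb : ∀ s, BM (ρ s) := fun s => (hψ s).sub ((BM.const t).mul (hχ s))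
  have hρa : ∀ s ω, ρ (R.op s) (R.T s ω) = - ρ s ω := by
    intro s ω
    simp only [hρ, hψa, hχa]
    ring
  have h0 : 0 ≤ ∫ ω, R.dg ω * R.b ρ n ω ∂μ :=
    integral_nonneg fun ω => mul_nonneg (R.dg_nonneg ω) (R.b_nonneg ρ n ω)
  rw [R.b_eq hρb hρa] at h0
  rw [R.b_eq hψ hψa]
  have hE : R.E (fun s ω => ρ s ω ^ 2) = R.E (fun s ω => ψ s ω ^ 2) -
      2 * t * R.E (fun s ω => ψ s ω * χ s ω) + t ^ 2 * R.E (fun s ω => χ s ω ^ 2) := by
    have hsq : ∀ s, BM (fun ω => ψ s ω ^ 2) := by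
      intro s
      simpa only [sq] using (hψ s).mul (hψ s)
    have hsq' : ∀ s, BM (fun ω => χ s ω ^ 2) := by
      intro s
      simpa only [sq] using (hχ s).mul (hχ s)
    have hm : ∀ s, BM (fun ω => ψ s ω * χ s ω) := fun s => (hψ s).mul (hχ s)
    have e1 : (fun s ω => ρ s ω ^ 2) = fun s ω => (ψ s ω ^ 2 +
        (-(2 * t)) * (ψ s ω * χ s ω)) + t ^ 2 * χ s ω ^ 2 := by
      funext s ω
      simp only [hρ]
      ring
    rw [e1, R.E_add (fun s => (hsq s).add ((BM.const _).mul (hm s)))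
      (fun s => (BM.const _).mul (hsq' s)), R.E_add hsq (fun s => (BM.const _).mul (hm s)),
      R.E_smul, R.E_smul]
    ring
  have hip : ∀ k, R.ip (R.av ρ) (R.a ρ k) = R.ip (R.av ψ) (R.a ψ k) -
      2 * t * R.ip (R.av χ) (R.a ψ k) + t ^ 2 * R.ip (R.av χ) (R.a χ k) := by
    intro k
    have e1 : R.av ρ = fun ω => R.av ψ ω - t * R.av χ ω := funext fun ω => R.av_lin ψ χ t ω
    have e2 : R.a ρ k = fun ω => R.a ψ k ω - t * R.a χ k ω := funext fun ω => R.a_lin ψ χ t k ω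
    rw [e1, e2, R.ip_lin_lin (R.bm_av hψ) (R.bm_av hχ) (R.bm_a hψ k) (R.bm_a hχ k),
      R.ip_a_symm hψ hχ]
    ring
  have hs : ∑ k ∈ Finset.range n, R.ip (R.av ρ) (R.a ρ k) =
      (∑ k ∈ Finset.range n, R.ip (R.av ψ) (R.a ψ k)) -
      2 * t * (∑ k ∈ Finset.range n, R.ip (R.av χ) (R.a ψ k)) +
      t ^ 2 * ∑ k ∈ Finset.range n, R.ip (R.av χ) (R.a χ k) := by
    rw [Finset.mul_sum, Finset.mul_sum, ← Finset.sum_sub_distrib, ← Finset.sum_add_distrib]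
    exact Finset.sum_congr rfl fun k _ => hip k
  have hb1 : ∀ k ∈ Finset.range n, |R.ip (R.av χ) (R.a ψ k)| ≤ n * A * ε := by
    intro k hk
    have hk' : (k : ℝ) ≤ n := by exact_mod_cast (Finset.mem_range.1 hk).le
    refine (R.ip_av_abs_le (R.bm_a hψ k) (R.a_abs_le hA hψA k) hχ).trans ?_
    exact mul_le_mul_of_nonneg_right (mul_le_mul_of_nonneg_right hk' hA) hε0
  have hc1 : |∑ k ∈ Finset.range n, R.ip (R.av χ) (R.a ψ k)| ≤ n * (n * A * ε) := by
    refine (Finset.abs_sum_le_sum_abs _ _).trans ((Finset.sum_le_sum hb1).trans ?_)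
    rw [Finset.sum_const, Finset.card_range, nsmul_eq_mul]
  have hc2 : 0 ≤ ∑ k ∈ Finset.range n, R.ip (R.av χ) (R.a χ k) :=
    Finset.sum_nonneg fun k _ => R.ip_a_nonneg hχ k
  rw [hE, hs] at h0
  set S1 := ∑ k ∈ Finset.range n, R.ip (R.av ψ) (R.a ψ k)
  set S2 := ∑ k ∈ Finset.range n, R.ip (R.av χ) (R.a ψ k)
  set S3 := ∑ k ∈ Finset.range n, R.ip (R.av χ) (R.a χ k)
  have h7 : 4 * (t * S2) ≤ 4 * (|t| * (n * (n * A * ε))) := by
    refine mul_le_mul_of_nonneg_left ?_ (by norm_num)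
    refine (le_abs_self _).trans ?_
    rw [abs_mul]
    exact mul_le_mul_of_nonneg_left hc1 (abs_nonneg _)
  have h8 : 0 ≤ t ^ 2 * S3 := mul_nonneg (sq_nonneg _) hc2
  linarith

end Rev

end H5DF
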